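import Pool.Agent.X43.QE.D

/-! `IOE(2^(2^n))` is Muchnik equivalent to `IOE(2^(n!))`. -/

set_option autoImplicit false

namespace Pool.Agent.Results.MP_2c929a_lc.FactorialBound

open Filter

/-- `IOE(h)`: the functions `f` such that for every computable `r` with `r n < h n` for all `n`
there are infinitely many `n` with `f n = r n`. -/
def IOE (h : ℕ → ℕ) : Set (ℕ → ℕ) :=
  {f | ∀ r : ℕ → ℕ, Computable r → (∀ n, r n < h n) → {n | f n = r n}.Infinite}

/-- Muchnik reducibility `B ≤_W C`: every `g ∈ C` computes some `f ∈ B`. -/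
def MuchnikLE (B C : Set (ℕ → ℕ)) : Prop :=
  ∀ g ∈ C, ∃ f ∈ B, TuringReducible (f : ℕ →. ℕ) (g : ℕ →. ℕ)

/-- Muchnik equivalence. -/
def MuchnikEquiv (B C : Set (ℕ → ℕ)) : Prop := MuchnikLE B C ∧ MuchnikLE C B

/-- There is a computable `f` with `f n > 2^(a^n)` for all large `n`, for every `a`, and
`IOE(2^(2^n))` Muchnik equivalent to `IOE(f)`; namely `f n = 2^(n!)`. -/
theorem result : ∃ f : ℕ → ℕ, (∀ n, f n = 2 ^ n.factorial) ∧ Computable f ∧
    (∀ a : ℕ, ∀ᶠ n in atTop, f n > 2 ^ (a ^ n)) ∧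
    MuchnikEquiv (IOE (fun n => 2 ^ (2 ^ n))) (IOE f) := by
  refine ⟨fun n => 2 ^ n.factorial, fun n => rfl,
    X43.QE.cpow (Computable.const 2) (X43.QE.cfact Computable.id),
    fun a => X43.QE.growth a, fun g hg => ⟨g, X43.QE.converse hg, TuringReducible.refl _⟩,
    fun g hg => ?_⟩
  exact X43.QE.main (g := g) hg

end Pool.Agent.Results.MP_2c929a_lc.FactorialBound
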